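import Mathlib
import Pool.Agent.N874.PP.Lat

/-!
# Project PP, part LB (helper457): coordinates and Gram matrices
-/

set_option autoImplicit false
set_option linter.all false

open Polynomial Matrix
open scoped Classical

namespace Pool.Agent.N457.PP

open Pool.Agent.N874.PP

section one

variable {k K L : Type} [Field k] [Field K] [Algebra k[X] K] [IsFractionRing k[X] K]
  [Field L] [Algebra K L] [Algebra k[X] L] [IsScalarTower k[X] K L] {a b : k[X]} {θ : L}

lemma vec0 (θ : L) : vec θ 0 = 1 := rfl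

lemma vec1 (θ : L) : vec θ 1 = θ := rfl

lemma vec2 (θ : L) : vec θ 2 = θ ^ 2 := rfl

lemma co_vec (h : IsCub K a b θ) (i j : Fin 3) :
    h.co i (vec θ j) = if j = i then 1 else 0 := by
  rw [IsCub.co, ← h.basis_apply, Module.Basis.coord_apply, Module.Basis.repr_self,
    Finsupp.single_apply]

lemma co_lin (h : IsCub K a b θ) (r s t : K) (i : Fin 3) :
    h.co i (algebraMap K L r + algebraMap K L s * θ + algebraMap K L t * θ ^ 2) =
      ![r, s, t] i := by
  have e : algebraMap K L r + algebraMap K L s * θ + algebraMap K L t * θ ^ 2 =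
      r • vec θ 0 + s • vec θ 1 + t • vec θ 2 := by
    simp [vec0, vec1, vec2, Algebra.smul_def]
  rw [e, map_add, map_add, map_smul, map_smul, map_smul, co_vec, co_vec, co_vec]
  fin_cases i <;> simp

lemma ext_co (h : IsCub K a b θ) (x : L) :
    x = algebraMap K L (h.co 0 x) + algebraMap K L (h.co 1 x) * θ +
      algebraMap K L (h.co 2 x) * θ ^ 2 := by
  obtain ⟨r, s, t, hx⟩ := h.gen x
  have h0 := co_lin h r s t 0
  have h1 := co_lin h r s t 1
  have h2 := co_lin h r s t 2
  rw [← hx] at h0 h1 h2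
  rw [h0, h1, h2]
  exact hx

lemma crd_co (h : IsCub K a b θ) {v : Fin 3 → k[X]} {x : L} (hv : Crd θ v x) (i : Fin 3) :
    h.co i x = algebraMap k[X] K (v i) := by
  have e : x = algebraMap K L (algebraMap k[X] K (v 0)) +
      algebraMap K L (algebraMap k[X] K (v 1)) * θ +
      algebraMap K L (algebraMap k[X] K (v 2)) * θ ^ 2 := by
    rw [← IsScalarTower.algebraMap_apply, ← IsScalarTower.algebraMap_apply,
      ← IsScalarTower.algebraMap_apply]
    exact hv
  rw [e, co_lin]
  fin_cases i <;> rfl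

lemma crd_of_co (h : IsCub K a b θ) {v : Fin 3 → k[X]} {x : L}
    (hv : ∀ i, h.co i x = algebraMap k[X] K (v i)) : Crd θ v x := by
  unfold Crd
  rw [IsScalarTower.algebraMap_apply k[X] K L, IsScalarTower.algebraMap_apply k[X] K L,
    IsScalarTower.algebraMap_apply k[X] K L, ← hv, ← hv, ← hv]
  exact ext_co h x

lemma root' (h : IsCub K a b θ) : θ ^ 3 = -(algebraMap K L (algebraMap k[X] K a) * θ) -
    algebraMap K L (algebraMap k[X] K b) := by
  rw [← IsScalarTower.algebraMap_apply, ← IsScalarTower.algebraMap_apply]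
  linear_combination h.root

lemma mul_theta (h : IsCub K a b θ) (x : L) :
    θ * x = algebraMap K L (-(algebraMap k[X] K b * h.co 2 x)) +
      algebraMap K L (h.co 0 x - algebraMap k[X] K a * h.co 2 x) * θ +
      algebraMap K L (h.co 1 x) * θ ^ 2 := by
  have h1 := root' h
  conv_lhs => rw [ext_co h x]
  rw [map_neg, map_mul, map_sub, map_mul]
  linear_combination (algebraMap K L (h.co 2 x)) * h1

lemma co2_theta (h : IsCub K a b θ) (x : L) : h.co 2 (θ * x) = h.co 1 x := by
  rw [mul_theta h x, co_lin]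
  rfl

lemma co1_theta (h : IsCub K a b θ) (x : L) :
    h.co 1 (θ * x) = h.co 0 x - algebraMap k[X] K a * h.co 2 x := by
  rw [mul_theta h x, co_lin]
  rfl

lemma co2_theta2 (h : IsCub K a b θ) (x : L) :
    h.co 2 (θ ^ 2 * x) = h.co 0 x - algebraMap k[X] K a * h.co 2 x := by
  rw [pow_two, mul_assoc, co2_theta, co1_theta]

/-- Criterion of integrality. -/
lemma crd_of_c2 (h : IsCub K a b θ) {x : L}
    (h0 : ∃ p : k[X], h.co 2 x = algebraMap k[X] K p)
    (h1 : ∃ p : k[X], h.co 2 (θ * x) = algebraMap k[X] K p)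
    (h2 : ∃ p : k[X], h.co 2 (θ ^ 2 * x) = algebraMap k[X] K p) :
    ∃ v : Fin 3 → k[X], Crd θ v x := by
  obtain ⟨p0, hp0⟩ := h0
  obtain ⟨p1, hp1⟩ := h1
  obtain ⟨p2, hp2⟩ := h2
  rw [co2_theta] at hp1
  rw [co2_theta2, hp0] at hp2
  refine ⟨![p2 + a * p0, p1, p0], crd_of_co h fun i => ?_⟩
  fin_cases i
  · show h.co 0 x = algebraMap k[X] K (p2 + a * p0)
    rw [map_add, map_mul, ← hp2]
    ring
  · exact hp1
  · exact hp0

/-! ### Gram matrices -/

/-- the matrix of the bilinear form -/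
noncomputable def gm (φ : L →ₗ[K] K) (α : L) (e : Fin 3 → L) : Matrix (Fin 3) (Fin 3) K :=
  fun i j => φ (e i * e j / α)

lemma gm_apply (φ : L →ₗ[K] K) (α : L) (e : Fin 3 → L) (i j : Fin 3) :
    gm φ α e i j = φ (e i * e j / α) := rfl

/-- change of the basis -/
noncomputable def actK (P : Matrix (Fin 3) (Fin 3) K) (e : Fin 3 → L) : Fin 3 → L :=
  fun i => ∑ j, P i j • e j

lemma actK_mul (P R : Matrix (Fin 3) (Fin 3) K) (e : Fin 3 → L) :
    actK (P * R) e = actK P (actK R e) := by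
  funext i
  unfold actK
  simp only [Matrix.mul_apply, Finset.sum_smul, Finset.smul_sum, smul_smul]
  rw [Finset.sum_comm]

lemma actK_one (e : Fin 3 → L) : actK (1 : Matrix (Fin 3) (Fin 3) K) e = e := by
  funext i
  unfold actK
  simp [Matrix.one_apply]

lemma gm_actK (φ : L →ₗ[K] K) (α : L) (P : Matrix (Fin 3) (Fin 3) K) (e : Fin 3 → L) :
    gm φ α (actK P e) = P * gm φ α e * Pᵀ := by
  ext i j
  have e1 : actK P e i * actK P e j / α = ∑ l, ∑ m, (P i l * P j m) • (e l * e m / α) := by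
    unfold actK
    rw [Finset.sum_mul_sum, Finset.sum_div]
    refine Finset.sum_congr rfl fun l _ => ?_
    rw [Finset.sum_div]
    refine Finset.sum_congr rfl fun m _ => ?_
    simp only [Algebra.smul_def, map_mul]
    ring
  rw [gm_apply, e1, map_sum]
  simp only [Matrix.mul_apply, Matrix.transpose_apply, Finset.sum_mul, map_sum, map_smul,
    smul_eq_mul, gm_apply]
  rw [Finset.sum_comm]
  refine Finset.sum_congr rfl fun m _ => Finset.sum_congr rfl fun l _ => ?_
  ring

/-- the coordinate matrix -/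
noncomputable def cm (h : IsCub K a b θ) (e : Fin 3 → L) : Matrix (Fin 3) (Fin 3) K :=
  fun i j => h.co j (e i)

lemma actK_cm (h : IsCub K a b θ) (e : Fin 3 → L) : actK (cm h e) (vec θ) = e := by
  funext i
  unfold actK cm
  rw [Fin.sum_univ_three]
  conv_rhs => rw [ext_co h (e i)]
  simp [vec0, vec1, vec2, Algebra.smul_def]

lemma gm_vec (h : IsCub K a b θ) (α : L) : gm (h.co 2) α (vec θ) =
    gm (h.co 2) 1 (vec θ) * Algebra.leftMulMatrix h.basis α⁻¹ := by
  ext i j
  rw [Matrix.mul_apply]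
  simp only [Algebra.leftMulMatrix_eq_repr_mul, gm_apply, div_one]
  have e1 : α⁻¹ * vec θ j = ∑ l, (h.basis.repr (α⁻¹ * h.basis j)) l • vec θ l := by
    have := h.basis.sum_repr (α⁻¹ * h.basis j)
    simp only [h.basis_apply] at this ⊢
    exact this.symm
  have e2 : vec θ i * vec θ j / α =
      ∑ l, (h.basis.repr (α⁻¹ * h.basis j)) l • (vec θ i * vec θ l) := by
    have e3 : vec θ i * vec θ j / α = vec θ i * (α⁻¹ * vec θ j) := by
      rw [div_eq_mul_inv]
      ring
    rw [e3, e1, Finset.mul_sum]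
    refine Finset.sum_congr rfl fun l _ => ?_
    rw [mul_smul_comm]
  rw [e2, map_sum]
  refine Finset.sum_congr rfl fun l _ => ?_
  rw [map_smul, smul_eq_mul, mul_comm]

lemma gm_one_det (h : IsCub K a b θ) : (gm (h.co 2) 1 (vec θ)).det = -1 := by
  have c0 : h.co 2 (vec θ 0 * vec θ 0 / 1) = 0 := by
    have : vec θ 0 * vec θ 0 / 1 = vec θ 0 := by simp [vec0, vec1, vec2]
    rw [this, co_vec]
    simp
  have c1 : h.co 2 (vec θ 0 * vec θ 1 / 1) = 0 := by
    have : vec θ 0 * vec θ 1 / 1 = vec θ 1 := by simp [vec0, vec1, vec2]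
    rw [this, co_vec]
    simp
  have c1' : h.co 2 (vec θ 1 * vec θ 0 / 1) = 0 := by rw [mul_comm]; exact c1
  have c2 : h.co 2 (vec θ 0 * vec θ 2 / 1) = 1 := by
    have : vec θ 0 * vec θ 2 / 1 = vec θ 2 := by simp [vec0, vec1, vec2]
    rw [this, co_vec]
    simp
  have c2' : h.co 2 (vec θ 2 * vec θ 0 / 1) = 1 := by rw [mul_comm]; exact c2
  have c3 : h.co 2 (vec θ 1 * vec θ 1 / 1) = 1 := by
    have : vec θ 1 * vec θ 1 / 1 = vec θ 2 := by simp [vec0, vec1, vec2, pow_two]
    rw [this, co_vec]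
    simp
  have c4 : h.co 2 (vec θ 1 * vec θ 2 / 1) = 0 := by
    have : vec θ 1 * vec θ 2 / 1 = θ * vec θ 2 := by simp [vec0, vec1, vec2]
    rw [this, co2_theta, co_vec]
    simp
  have c4' : h.co 2 (vec θ 2 * vec θ 1 / 1) = 0 := by rw [mul_comm]; exact c4
  rw [Matrix.det_fin_three]
  unfold gm
  rw [c0, c1, c1', c2, c2', c3, c4, c4']
  ring

lemma norm_mul_inv {α : L} (hα : α ≠ 0) :
    Algebra.norm K α * Algebra.norm K α⁻¹ = 1 := by
  rw [← map_mul, mul_inv_cancel₀ hα, map_one]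

lemma norm_ne {α : L} (hα : α ≠ 0) : Algebra.norm K α ≠ 0 :=
  left_ne_zero_of_mul_eq_one (norm_mul_inv hα)

lemma norm_inv' {α : L} (hα : α ≠ 0) : Algebra.norm K α⁻¹ = (Algebra.norm K α)⁻¹ :=
  eq_inv_of_mul_eq_one_right (norm_mul_inv hα)

lemma gm_det (h : IsCub K a b θ) {α : L} (hα : α ≠ 0) (e : Fin 3 → L) :
    (gm (h.co 2) α e).det = -((cm h e).det ^ 2 / Algebra.norm K α) := by
  conv_lhs => rw [← actK_cm h e]
  rw [gm_actK, Matrix.det_mul, Matrix.det_mul, Matrix.det_transpose, gm_vec, Matrix.det_mul,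
    gm_one_det, ← Algebra.norm_eq_matrix_det, norm_inv' hα]
  ring

end one

end Pool.Agent.N457.PP
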