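import Mathlib
import Pool.Agent.N457.PP.A

/-!
# Project PP, part LB (helper457): the Gram matrix of a self-dual lattice is unimodular
-/

set_option autoImplicit false
set_option linter.all false

open Polynomial Matrix
open scoped Classical

namespace Pool.Agent.N457.PP

open Pool.Agent.N874.PP

section two

variable {k K L : Type} [Field k] [Field K] [Algebra k[X] K] [IsFractionRing k[X] K]
  [Field L] [Algebra K L] [Algebra k[X] L] [IsScalarTower k[X] K L] {a b : k[X]} {θ : L}

lemma inj : Function.Injective (algebraMap k[X] K) := IsFractionRing.injective k[X] K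

lemma li_cm (h : IsCub K a b θ) {e : Fin 3 → L} (he : LinearIndependent K e) :
    (cm h e).det ≠ 0 := by
  intro h0
  obtain ⟨v, hv, hv0⟩ := Matrix.exists_vecMul_eq_zero_iff.2 h0
  refine hv ?_
  have h1 : ∑ i, v i • e i = 0 := by
    have e1 : ∀ i, e i = ∑ j, cm h e i j • N874.PP.vec θ j := by
      intro i
      conv_lhs => rw [← actK_cm h e]
      rfl
    calc ∑ i, v i • e i = ∑ i, v i • ∑ j, cm h e i j • N874.PP.vec θ j :=
          Finset.sum_congr rfl fun i _ => by rw [← e1 i]
      _ = ∑ j, (∑ i, v i * cm h e i j) • N874.PP.vec θ j := by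
          simp only [Finset.smul_sum, smul_smul, Finset.sum_smul]
          rw [Finset.sum_comm]
      _ = 0 := by
          refine Finset.sum_eq_zero fun j _ => ?_
          have h2 := congrFun hv0 j
          have h3 : ∑ i, v i * cm h e i j = 0 := h2
          rw [h3, zero_smul]
  funext i
  exact Fintype.linearIndependent_iff.1 he v h1 i

lemma gm_symm (φ : L →ₗ[K] K) (α : L) (e : Fin 3 → L) : (gm φ α e)ᵀ = gm φ α e := by
  ext i j
  rw [Matrix.transpose_apply, gm_apply, gm_apply, mul_comm]

/-- the lattice is a module over the ring of integers -/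
lemma mul_mem {e : Fin 3 → L} {α : L} (hS : SD k K e α) {z : L} (hz : IsIntegral k[X] z)
    (i : Fin 3) : ∃ c : Fin 3 → k[X], z * e i = ∑ l, algebraMap k[X] L (c l) * e l := by
  refine hS.dual _ fun i' => ?_
  have e1 : e i' * (z * e i) / α = z * (e i' * e i / α) := by ring
  rw [e1]
  exact hz.mul (hS.int i' i)

lemma theta_int (h : IsCub K a b θ) (hI : ∀ x : L, IsIntegral k[X] x ↔ ∃ v : Fin 3 → k[X], Crd θ v x) :
    IsIntegral k[X] θ := by
  rw [hI]
  exact ⟨![0, 1, 0], by simp [Crd]⟩

lemma smul_alg (p : k[X]) (x : L) : algebraMap k[X] L p * x = algebraMap k[X] K p • x := by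
  rw [Algebra.smul_def, ← IsScalarTower.algebraMap_apply]

lemma gram_unit (h : IsCub K a b θ) (hI : ∀ x : L, IsIntegral k[X] x ↔ ∃ v : Fin 3 → k[X], Crd θ v x)
    {e : Fin 3 → L} {α : L} (hα : α ≠ 0) (hS : SD k K e α)
    {G : Matrix (Fin 3) (Fin 3) k[X]} (hG : gm (h.co 2) α e = G.map (algebraMap k[X] K)) :
    IsUnit G.det := by
  set Gk := gm (h.co 2) α e with hGk
  have hdet : IsUnit Gk.det := by
    rw [hGk, gm_det h hα, isUnit_iff_ne_zero, neg_ne_zero]
    exact div_ne_zero (pow_ne_zero 2 (li_cm h hS.li)) (norm_ne hα)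
  have hW : Gk⁻¹ * Gk = 1 := Matrix.nonsing_inv_mul _ hdet
  set W := Gk⁻¹ with hWdef
  have hW2 : Gk * Wᵀ = 1 := by
    have h1 := congrArg Matrix.transpose hW
    rw [Matrix.transpose_mul, Matrix.transpose_one, hGk, gm_symm, ← hGk] at h1
    exact h1
  set f : Fin 3 → L := actK W e with hf
  -- the dual basis
  have hd : ∀ i j, h.co 2 (e i * f j / α) = if i = j then 1 else 0 := by
    intro i j
    have e1 : e i * f j / α = ∑ l, W j l • (e i * e l / α) := by
      rw [hf, actK, Finset.mul_sum, Finset.sum_div]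
      refine Finset.sum_congr rfl fun l _ => ?_
      rw [mul_smul_comm, smul_div_assoc]
    rw [e1, map_sum]
    have e2 := congrFun (congrFun hW2 i) j
    rw [Matrix.mul_apply, Matrix.one_apply] at e2
    rw [← e2]
    refine Finset.sum_congr rfl fun l _ => ?_
    rw [map_smul, smul_eq_mul, Matrix.transpose_apply, hGk, gm_apply, mul_comm]
  have hz : ∀ z : L, IsIntegral k[X] z → ∀ i j, ∃ p : k[X],
      h.co 2 (z * (e i * f j / α)) = algebraMap k[X] K p := by
    intro z hz i j
    obtain ⟨c, hc⟩ := mul_mem hS hz i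
    refine ⟨c j, ?_⟩
    have e1 : z * (e i * f j / α) = ∑ l, algebraMap k[X] K (c l) • (e l * f j / α) := by
      have e2 : z * (e i * f j / α) = (z * e i) * f j / α := by ring
      rw [e2, hc, Finset.sum_mul, Finset.sum_div]
      refine Finset.sum_congr rfl fun l _ => ?_
      rw [smul_alg (K := K), smul_mul_assoc, smul_div_assoc]
    rw [e1, map_sum]
    simp only [map_smul, hd, smul_eq_mul, mul_ite, mul_one, mul_zero]
    rw [Finset.sum_ite_eq' Finset.univ j]
    simp
  have hint : ∀ i j, IsIntegral k[X] (e i * f j / α) := by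
    intro i j
    rw [hI]
    have ht := theta_int h hI
    refine crd_of_c2 h ?_ (hz θ ht i j) (hz (θ ^ 2) (ht.pow 2) i j)
    have := hz 1 isIntegral_one i j
    rwa [one_mul] at this
  choose c hc using fun j => hS.dual (f j) fun i => hint i j
  -- the inverse matrix
  have hinv : G * (Matrix.of c)ᵀ = 1 := by
    refine Matrix.ext fun i j => ?_
    apply inj (k := k) (K := K)
    rw [Matrix.mul_apply, map_sum]
    have e1 : algebraMap k[X] K ((1 : Matrix (Fin 3) (Fin 3) k[X]) i j) =
        if i = j then 1 else 0 := by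
      rw [Matrix.one_apply]
      split_ifs <;> simp
    rw [e1, ← hd i j]
    have e2 : e i * f j / α = ∑ l, algebraMap k[X] K (c j l) • (e i * e l / α) := by
      rw [hc j, Finset.mul_sum, Finset.sum_div]
      refine Finset.sum_congr rfl fun l _ => ?_
      rw [smul_alg (K := K), mul_smul_comm, smul_div_assoc]
    rw [e2, map_sum]
    refine Finset.sum_congr rfl fun l _ => ?_
    have e3 : algebraMap k[X] K (G i l) = h.co 2 (e i * e l / α) := by
      have := congrFun (congrFun hG i) l
      rw [Matrix.map_apply, hGk, gm_apply] at this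
      exact this.symm
    rw [map_mul, map_smul, smul_eq_mul, e3, mul_comm]
    rfl
  have h1 : G.det * ((Matrix.of c)ᵀ).det = 1 := by rw [← Matrix.det_mul, hinv, Matrix.det_one]
  exact IsUnit.of_mul_eq_one _ h1

theorem gram (h : IsCub K a b θ) (hI : ∀ x : L, IsIntegral k[X] x ↔ ∃ v : Fin 3 → k[X], Crd θ v x)
    {e : Fin 3 → L} {α : L} (hα : α ≠ 0) (hsq : IsSquare (Algebra.norm K α))
    (hS : SD k K e α) : ∃ (G₁ G₂ : Matrix (Fin 3) (Fin 3) k[X]) (κ : k), κ ≠ 0 ∧
      gm (h.co 1) α e = G₁.map (algebraMap k[X] K) ∧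
      gm (h.co 2) α e = G₂.map (algebraMap k[X] K) ∧ G₂.det = -C (κ ^ 2) ∧
      (cm h e).det ^ 2 = algebraMap k[X] K (C (κ ^ 2)) * Algebra.norm K α := by
  choose V hV using fun i j => (hI _).1 (hS.int i j)
  set G₁ : Matrix (Fin 3) (Fin 3) k[X] := Matrix.of fun i j => V i j 1 with hG₁
  set G₂ : Matrix (Fin 3) (Fin 3) k[X] := Matrix.of fun i j => V i j 2 with hG₂
  have e1 : gm (h.co 1) α e = G₁.map (algebraMap k[X] K) := by
    ext i j
    rw [gm_apply, crd_co h (hV i j)]
    rfl
  have e2 : gm (h.co 2) α e = G₂.map (algebraMap k[X] K) := by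
    ext i j
    rw [gm_apply, crd_co h (hV i j)]
    rfl
  have hu := gram_unit h hI hα hS e2
  obtain ⟨u, hu1, hu2⟩ := Polynomial.isUnit_iff.1 hu
  obtain ⟨r, hr⟩ := hsq
  have hr0 : r ≠ 0 := by
    rintro rfl
    rw [mul_zero] at hr
    exact norm_ne hα hr
  have hd : algebraMap k[X] K G₂.det = -((cm h e).det ^ 2 / Algebra.norm K α) := by
    rw [← gm_det h hα, e2, RingHom.map_det]
    rfl
  have hint : IsIntegral k[X] ((cm h e).det / r) := by
    refine IsIntegral.of_pow (n := 2) (by norm_num) ?_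
    have e3 : ((cm h e).det / r) ^ 2 = algebraMap k[X] K (-G₂.det) := by
      rw [map_neg, hd, hr]
      field_simp
    rw [e3]
    exact isIntegral_algebraMap
  obtain ⟨p, hp⟩ := IsIntegrallyClosed.isIntegral_iff.1 hint
  have hp2 : p ^ 2 = -G₂.det := by
    apply inj (k := k) (K := K)
    rw [map_pow, hp, map_neg, hd, hr]
    field_simp
  have hpd : p.natDegree = 0 := by
    have h3 := congrArg Polynomial.natDegree hp2
    rw [Polynomial.natDegree_pow, Polynomial.natDegree_neg, ← hu2, Polynomial.natDegree_C] at h3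
    omega
  obtain ⟨κ, hκ⟩ : ∃ κ : k, p = C κ := ⟨p.coeff 0, Polynomial.eq_C_of_natDegree_eq_zero hpd⟩
  have hG : G₂.det = -C (κ ^ 2) := by
    rw [C_pow, ← hκ, hp2, neg_neg]
  refine ⟨G₁, G₂, κ, ?_, e1, e2, hG, ?_⟩
  · rintro rfl
    rw [hG] at hu
    simp at hu
  · have h4 := hd
    rw [hG, map_neg, neg_inj] at h4
    rw [h4]
    field_simp [norm_ne hα]

end two

end Pool.Agent.N457.PP
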