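import Mathlib
import Pool.Agent.N457.PP.B

/-!
# Project PP, part LB (helper457): the square class, isotropic vectors modulo `Q`
-/

set_option autoImplicit false
set_option linter.all false

open Polynomial Matrix
open scoped Classical

namespace Pool.Agent.N457.PP

open Pool.Agent.N874.PP

section field

variable {F : Type} [Field F]

/-- the quadratic form of a tuple -/
noncomputable def qf (B : Tup F) (x : Fin 3 → F) : F :=
  B.x * x 0 ^ 2 + 2 * B.y * x 0 * x 1 - 2 * B.c * x 1 ^ 2 + 2 * B.c * x 0 * x 2 +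
    2 * B.z * x 1 * x 2 + B.w * x 2 ^ 2

lemma iso_param (h2 : (2 : F) ≠ 0) (B : Tup F) {x : Fin 3 → F}
    (h1 : 2 * x 0 * x 2 + x 1 ^ 2 = 0) (hq : qf B x = 0) (hx : x 2 ≠ 0) :
    ∃ u : F, x 1 = 2 * u * x 2 ∧ x 0 = -2 * u ^ 2 * x 2 ∧ gq B u = 0 := by
  obtain ⟨u, hu⟩ : ∃ u : F, x 1 = 2 * u * x 2 := ⟨x 1 / (2 * x 2), by field_simp⟩
  have h3 : x 0 = -2 * u ^ 2 * x 2 := by
    have h4 : 2 * x 2 * (x 0 + 2 * u ^ 2 * x 2) = 0 := by
      rw [hu] at h1
      linear_combination h1
    have h5 : x 0 + 2 * u ^ 2 * x 2 = 0 :=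
      (mul_eq_zero.1 h4).resolve_left (mul_ne_zero h2 hx)
    linear_combination h5
  refine ⟨u, hu, h3, ?_⟩
  have h4 : x 2 ^ 2 * gq B u = 0 := by
    rw [← hq]
    unfold qf gq
    rw [hu, h3]
    ring
  exact (mul_eq_zero.1 h4).resolve_left (pow_ne_zero 2 hx)

lemma iso_two (h2 : (2 : F) ≠ 0) (B : Tup F) {x y : Fin 3 → F}
    (hx : 2 * x 0 * x 2 + x 1 ^ 2 = 0) (hqx : qf B x = 0)
    (hy : 2 * y 0 * y 2 + y 1 ^ 2 = 0) (hqy : qf B y = 0)
    (hxy : ∃ i j, x i * y j - x j * y i ≠ 0) : Two B := by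
  have hzero : ∀ z : Fin 3 → F, 2 * z 0 * z 2 + z 1 ^ 2 = 0 → qf B z = 0 → z 2 = 0 →
      z 1 = 0 ∧ B.x * z 0 ^ 2 = 0 := by
    intro z hz hq hz2
    rw [hz2, mul_zero, zero_add] at hz
    have h3 : z 1 = 0 := pow_eq_zero_iff (by norm_num) |>.1 hz
    refine ⟨h3, ?_⟩
    unfold qf at hq
    rw [hz2, h3] at hq
    linear_combination hq
  -- if the vectors are proportional all minors vanish
  have hprop : ∀ (l m : F) (v : Fin 3 → F), (∀ i, x i = l * v i) → (∀ i, y i = m * v i) →
      False := by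
    intro l m v hl hm
    obtain ⟨i, j, hij⟩ := hxy
    refine hij ?_
    rw [hl i, hl j, hm i, hm j]
    ring
  by_cases hx2 : x 2 = 0
  · obtain ⟨hx1, hx0⟩ := hzero x hx hqx hx2
    by_cases hy2 : y 2 = 0
    · obtain ⟨hy1, hy0⟩ := hzero y hy hqy hy2
      exfalso
      refine hprop (x 0) (y 0) ![1, 0, 0] (fun i => ?_) (fun i => ?_)
      · fin_cases i
        · simp
        · simpa using hx1
        · simpa using hx2
      · fin_cases i
        · simp
        · simpa using hy1
        · simpa using hy2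
    · obtain ⟨u, hu1, hu0, hu⟩ := iso_param h2 B hy hqy hy2
      refine Or.inr ⟨?_, u, hu⟩
      have hx00 : x 0 ≠ 0 := by
        intro h0
        refine hprop 0 1 y (fun i => ?_) (fun i => (one_mul _).symm)
        rw [zero_mul]
        fin_cases i
        · exact h0
        · exact hx1
        · exact hx2
      exact (mul_eq_zero.1 hx0).resolve_right (pow_ne_zero 2 hx00)
  · obtain ⟨u, hu1, hu0, hu⟩ := iso_param h2 B hx hqx hx2
    by_cases hy2 : y 2 = 0
    · obtain ⟨hy1, hy0⟩ := hzero y hy hqy hy2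
      refine Or.inr ⟨?_, u, hu⟩
      have hy00 : y 0 ≠ 0 := by
        intro h0
        refine hprop 1 0 x (fun i => (one_mul _).symm) (fun i => ?_)
        rw [zero_mul]
        fin_cases i
        · exact h0
        · exact hy1
        · exact hy2
      exact (mul_eq_zero.1 hy0).resolve_right (pow_ne_zero 2 hy00)
    · obtain ⟨u', hu1', hu0', hu'⟩ := iso_param h2 B hy hqy hy2
      refine Or.inl ⟨u, u', ?_, hu, hu'⟩
      rintro rfl
      refine hprop (x 2) (y 2) ![-2 * u ^ 2, 2 * u, 1] (fun i => ?_) (fun i => ?_)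
      · fin_cases i
        · show x 0 = x 2 * (-2 * u ^ 2)
          rw [hu0]
          ring
        · show x 1 = x 2 * (2 * u)
          rw [hu1]
          ring
        · show x 2 = x 2 * 1
          rw [mul_one]
      · fin_cases i
        · show y 0 = y 2 * (-2 * u ^ 2)
          rw [hu0']
          ring
        · show y 1 = y 2 * (2 * u)
          rw [hu1']
          ring
        · show y 2 = y 2 * 1
          rw [mul_one]

end field

section modQ

variable {k : Type} [Field k]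

/-- the quadratic form over the polynomials -/
noncomputable def qp (B : Tup k[X]) (x : Fin 3 → k[X]) : k[X] :=
  B.x * x 0 ^ 2 + 2 * B.y * x 0 * x 1 - 2 * B.c * x 1 ^ 2 + 2 * B.c * x 0 * x 2 +
    2 * B.z * x 1 * x 2 + B.w * x 2 ^ 2

lemma tt_of (h2 : (2 : k) ≠ 0) {Q : k[X]} (hQ : Irreducible Q) (B : Tup k[X])
    {x y : Fin 3 → k[X]} (hx : Q ∣ 2 * x 0 * x 2 + x 1 ^ 2) (hqx : Q ∣ qp B x)
    (hy : Q ∣ 2 * y 0 * y 2 + y 1 ^ 2) (hqy : Q ∣ qp B y)
    (hxy : ∃ i j, ¬ Q ∣ x i * y j - x j * y i) : TT Q B := by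
  haveI : Fact (Irreducible Q) := ⟨hQ⟩
  set π : k[X] →+* AdjoinRoot Q := AdjoinRoot.mk Q with hπ
  have hz : ∀ p : k[X], π p = 0 ↔ Q ∣ p := fun p => AdjoinRoot.mk_eq_zero
  have hsurj : Function.Surjective π := AdjoinRoot.mk_surjective
  have h2' : (2 : AdjoinRoot Q) ≠ 0 := by
    have h3 : ¬ Q ∣ C (2 : k) := by
      intro h4
      exact hQ.not_isUnit (isUnit_of_dvd_unit h4 (Polynomial.isUnit_C.2
        (isUnit_iff_ne_zero.2 h2)))
    have h4 : π (C (2 : k)) ≠ 0 := fun h5 => h3 ((hz _).1 h5)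
    intro h5
    apply h4
    have h6 : (C (2 : k) : k[X]) = 2 := rfl
    rw [h6, map_ofNat, h5]
  set B' : Tup (AdjoinRoot Q) := ⟨π B.x, π B.y, π B.c, π B.z, π B.w⟩ with hB'
  have hgq : ∀ u : k[X], gq B' (π u) = π (gq B u) := by
    intro u
    unfold gq
    simp only [map_add, map_sub, map_mul, map_pow, map_ofNat, hB']
  have hqf : ∀ z : Fin 3 → k[X], qf B' (fun i => π (z i)) = π (qp B z) := by
    intro z
    unfold qf qp
    simp only [map_add, map_sub, map_mul, map_pow, map_ofNat, hB']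
  have hiso : ∀ z : Fin 3 → k[X], Q ∣ 2 * z 0 * z 2 + z 1 ^ 2 →
      2 * π (z 0) * π (z 2) + π (z 1) ^ 2 = 0 := by
    intro z hz1
    have := (hz _).2 hz1
    simpa only [map_add, map_mul, map_pow, map_ofNat] using this
  have htwo : Two B' := by
    refine iso_two h2' B' (x := fun i => π (x i)) (y := fun i => π (y i)) (hiso x hx)
      (by rw [hqf]; exact (hz _).2 hqx) (hiso y hy) (by rw [hqf]; exact (hz _).2 hqy) ?_
    obtain ⟨i, j, hij⟩ := hxy
    refine ⟨i, j, fun h3 => hij ?_⟩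
    rw [← hz]
    simpa only [map_sub, map_mul] using h3
  rcases htwo with ⟨u, u', huu, h3, h4⟩ | ⟨h3, u, h4⟩
  · obtain ⟨v, rfl⟩ := hsurj u
    obtain ⟨v', rfl⟩ := hsurj u'
    refine Or.inl ⟨v, v', ?_, (hz _).1 (by rw [← hgq]; exact h3),
      (hz _).1 (by rw [← hgq]; exact h4)⟩
    intro h5
    apply huu
    have := (hz _).2 h5
    rw [map_sub, sub_eq_zero] at this
    exact this
  · obtain ⟨v, rfl⟩ := hsurj u
    exact Or.inr ⟨(hz _).1 h3, v, (hz _).1 (by rw [← hgq]; exact h4)⟩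

/-- minors -/
lemma minors (W : Matrix (Fin 3) (Fin 3) k[X]) (η η' : Fin 3 → k[X]) (i j : Fin 3) :
    (η ᵥ* W) i * (η' ᵥ* W) j - (η ᵥ* W) j * (η' ᵥ* W) i =
      ∑ p, ∑ q, W p i * W q j * (η p * η' q - η q * η' p) := by
  simp only [Matrix.vecMul, dotProduct, Fin.sum_univ_three]
  ring

/-- degrees -/
def DB (n : ℤ) (P : k[X]) : Prop := P = 0 ∨ (P.natDegree : ℤ) ≤ n

lemma DB.add {n : ℤ} {P R : k[X]} (hP : DB n P) (hR : DB n R) : DB n (P + R) := by
  rcases hP with rfl | hP
  · rwa [zero_add]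
  · rcases hR with rfl | hR
    · rw [add_zero]
      exact Or.inr hP
    · refine Or.inr ?_
      have h1 := Polynomial.natDegree_add_le P R
      have h2 : ((P + R).natDegree : ℤ) ≤ max (P.natDegree : ℤ) R.natDegree := by
        exact_mod_cast h1
      exact h2.trans (max_le hP hR)

lemma DB.mul {m n : ℤ} {P R : k[X]} (hP : DB m P) (hR : DB n R) : DB (m + n) (P * R) := by
  rcases hP with rfl | hP
  · rw [zero_mul]
    exact Or.inl rfl
  · rcases hR with rfl | hR
    · rw [mul_zero]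
      exact Or.inl rfl
    · refine Or.inr ?_
      have h1 := Polynomial.natDegree_mul_le (p := P) (q := R)
      have h2 : ((P * R).natDegree : ℤ) ≤ (P.natDegree : ℤ) + R.natDegree := by
        exact_mod_cast h1
      linarith

lemma DB.sum {n : ℤ} {ι : Type} (s : Finset ι) (f : ι → k[X]) (h : ∀ i ∈ s, DB n (f i)) :
    DB n (∑ i ∈ s, f i) := by
  induction s using Finset.induction_on with
  | empty => exact Or.inl (by simp)
  | insert i s hi ih =>
    rw [Finset.sum_insert hi]
    exact (h i (Finset.mem_insert_self _ _)).add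
      (ih fun j hj => h j (Finset.mem_insert_of_mem hj))

lemma DB.congr {m n : ℤ} {P : k[X]} (h : DB m P) (hmn : m = n) : DB n P := hmn ▸ h

lemma le_wt (d : Fin 3 → ℕ) (v : Fin 3 → k[X]) (j : Fin 3) (hj : v j ≠ 0) :
    (v j).natDegree + d j ≤ wt d v := by
  unfold wt
  have h1 := Finset.le_sup (f := fun j => if v j = 0 then 0 else (v j).natDegree + d j)
    (Finset.mem_univ j)
  simp only [if_neg hj] at h1
  exact h1

end modQ

section sq

variable {k K L : Type} [Field k] [Field K] [Algebra k[X] K] [IsFractionRing k[X] K]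
  [Field L] [Algebra K L] [Algebra k[X] L] [IsScalarTower k[X] K L] {a b : k[X]} {θ : L}

/-- the first coefficient does not vanish -/
lemma sq_of_zero (h : IsCub K a b θ) {α x : L} (hα : α ≠ 0) (hx : x ≠ 0)
    (hsq : IsSquare (Algebra.norm K α)) (h1 : h.co 1 (x * x / α) = 0)
    (h2 : h.co 2 (x * x / α) = 0) : IsSquare α := by
  have e0 := ext_co h (x * x / α)
  rw [h1, h2] at e0
  simp only [map_zero, zero_mul, add_zero] at e0
  set c := h.co 0 (x * x / α) with hc
  have hxx : x * x / α ≠ 0 := div_ne_zero (mul_ne_zero hx hx) hα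
  have hc0 : c ≠ 0 := by
    intro h3
    rw [h3, map_zero] at e0
    exact hxx e0
  obtain ⟨r, hr⟩ := hsq
  have hr0 : r ≠ 0 := by
    rintro rfl
    rw [mul_zero] at hr
    exact norm_ne hα hr
  have e1 : Algebra.norm K α * c ^ 3 = Algebra.norm K x * Algebra.norm K x := by
    have e2 : α * algebraMap K L c = x * x := by
      rw [← e0]
      field_simp
    have e3 := congrArg (Algebra.norm K) e2
    rw [map_mul, map_mul, Algebra.norm_algebraMap, h.rank] at e3
    exact e3
  have e4 : c = (Algebra.norm K x / (r * c)) ^ 2 := by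
    rw [hr] at e1
    field_simp
    linear_combination e1
  have hd0 : Algebra.norm K x / (r * c) ≠ 0 := by
    intro h5
    rw [h5] at e4
    exact hc0 (by rw [e4]; ring)
  set d := Algebra.norm K x / (r * c) with hd
  have hdL : algebraMap K L d ≠ 0 := by
    rw [Ne, map_eq_zero]
    exact hd0
  refine ⟨x / algebraMap K L d, ?_⟩
  rw [e4, map_pow] at e0
  field_simp at e0 ⊢
  linear_combination -e0

end sq

end Pool.Agent.N457.PP
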