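import Mathlib
import Pool.Agent.N457.PP.C

/-!
# Project PP, part LB (helper457): from an integral self-dual lattice to the tuple
-/

set_option autoImplicit false
set_option linter.all false

open Polynomial Matrix
open scoped Classical

namespace Pool.Agent.N457.PP

open Pool.Agent.N874.PP

section am

variable {k : Type} [Field k] (K : Type) [Field K] [Algebra k[X] K]

/-- scalar extension of a matrix -/
noncomputable def am (U : Matrix (Fin 3) (Fin 3) k[X]) : Matrix (Fin 3) (Fin 3) K :=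
  U.map (algebraMap k[X] K)

lemma am_apply (U : Matrix (Fin 3) (Fin 3) k[X]) (i j : Fin 3) :
    am K U i j = algebraMap k[X] K (U i j) := rfl

lemma am_mul (U V : Matrix (Fin 3) (Fin 3) k[X]) : am K (U * V) = am K U * am K V :=
  Matrix.map_mul

lemma am_one : am K (1 : Matrix (Fin 3) (Fin 3) k[X]) = 1 :=
  Matrix.map_one _ (map_zero _) (map_one _)

lemma am_transpose (U : Matrix (Fin 3) (Fin 3) k[X]) : am K Uᵀ = (am K U)ᵀ := rfl

lemma am_det (U : Matrix (Fin 3) (Fin 3) k[X]) :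
    (am K U).det = algebraMap k[X] K U.det := by
  rw [RingHom.map_det]
  rfl

end am

section three

variable {k K L : Type} [Field k] [Field K] [Algebra k[X] K] [IsFractionRing k[X] K]
  [Field L] [Algebra K L] [Algebra k[X] L] [IsScalarTower k[X] K L] {a b : k[X]} {θ : L}

lemma am_inj {U V : Matrix (Fin 3) (Fin 3) k[X]} (h : am K U = am K V) : U = V := by
  refine Matrix.ext fun i j => inj (k := k) (K := K) ?_
  exact congrFun (congrFun h i) j

lemma cm_actK (h : IsCub K a b θ) (P : Matrix (Fin 3) (Fin 3) K) (e : Fin 3 → L) :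
    cm h (actK P e) = P * cm h e := by
  refine Matrix.ext fun i j => ?_
  rw [Matrix.mul_apply]
  unfold cm actK
  rw [map_sum]
  refine Finset.sum_congr rfl fun l _ => ?_
  rw [map_smul, smul_eq_mul]

lemma cm_crd (h : IsCub K a b θ) {E : Matrix (Fin 3) (Fin 3) k[X]} {e : Fin 3 → L}
    (hE : ∀ i, Crd θ (E i) (e i)) : cm h e = am K E := by
  refine Matrix.ext fun i j => ?_
  exact crd_co h (hE i) j

lemma crd_cm (h : IsCub K a b θ) {E : Matrix (Fin 3) (Fin 3) k[X]} {e : Fin 3 → L}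
    (hE : cm h e = am K E) (i : Fin 3) : Crd θ (E i) (e i) :=
  crd_of_co h fun j => congrFun (congrFun hE i) j

lemma li_of_cm (h : IsCub K a b θ) {e : Fin 3 → L} (he : (cm h e).det ≠ 0) :
    LinearIndependent K e := by
  rw [Fintype.linearIndependent_iff]
  intro g hg
  have h1 : g ᵥ* cm h e = 0 := by
    funext j
    have h2 := congrArg (h.co j) hg
    rw [map_sum, map_zero] at h2
    simp only [map_smul, smul_eq_mul] at h2
    exact h2
  have h2 := Matrix.eq_zero_of_vecMul_eq_zero he h1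
  intro i
  exact congrFun h2 i

lemma mul_actK (P : Matrix (Fin 3) (Fin 3) K) (e : Fin 3 → L) (α : L) (i j : Fin 3) :
    actK P e i * actK P e j / α = ∑ l, ∑ m, (P i l * P j m) • (e l * e m / α) := by
  unfold actK
  rw [Finset.sum_mul_sum, Finset.sum_div]
  refine Finset.sum_congr rfl fun l _ => ?_
  rw [Finset.sum_div]
  refine Finset.sum_congr rfl fun m _ => ?_
  simp only [Algebra.smul_def, map_mul]
  ring

lemma int_act (U : Matrix (Fin 3) (Fin 3) k[X]) {e : Fin 3 → L} {α : L}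
    (he : ∀ i j, IsIntegral k[X] (e i * e j / α)) (i j : Fin 3) :
    IsIntegral k[X] (actK (am K U) e i * actK (am K U) e j / α) := by
  rw [mul_actK]
  refine IsIntegral.sum _ fun l _ => IsIntegral.sum _ fun m _ => ?_
  rw [am_apply, am_apply, ← map_mul, ← smul_alg]
  exact isIntegral_algebraMap.mul (he l m)

lemma gm_am (φ : L →ₗ[K] K) (α : L) (U : Matrix (Fin 3) (Fin 3) k[X]) {e : Fin 3 → L}
    {G : Matrix (Fin 3) (Fin 3) k[X]} (hG : gm φ α e = am K G) :
    gm φ α (actK (am K U) e) = am K (U * G * Uᵀ) := by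
  rw [gm_actK, hG, am_mul, am_mul, am_transpose]

lemma sum_act (P : Matrix (Fin 3) (Fin 3) k[X]) (f : Fin 3 → L) (ξ : Fin 3 → k[X]) :
    ∑ i, algebraMap k[X] L (ξ i) * actK (am K P) f i =
      ∑ j, algebraMap k[X] L ((ξ ᵥ* P) j) * f j := by
  unfold actK
  simp only [Matrix.vecMul, dotProduct, map_sum, map_mul, Finset.sum_mul, Finset.mul_sum,
    am_apply]
  rw [Finset.sum_comm]
  refine Finset.sum_congr rfl fun j _ => Finset.sum_congr rfl fun i _ => ?_
  rw [← smul_alg]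
  ring

lemma quad (φ : L →ₗ[K] K) (α : L) (f : Fin 3 → L) {G : Matrix (Fin 3) (Fin 3) k[X]}
    (hG : gm φ α f = am K G) (η : Fin 3 → k[X]) :
    φ ((∑ j, algebraMap k[X] L (η j) * f j) ^ 2 / α) =
      algebraMap k[X] K (∑ i, ∑ j, η i * η j * G i j) := by
  have e1 : (∑ j, algebraMap k[X] L (η j) * f j) ^ 2 / α =
      ∑ i, ∑ j, algebraMap k[X] K (η i * η j) • (f i * f j / α) := by
    rw [pow_two, Finset.sum_mul_sum, Finset.sum_div]
    refine Finset.sum_congr rfl fun i _ => ?_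
    rw [Finset.sum_div]
    refine Finset.sum_congr rfl fun j _ => ?_
    rw [← smul_alg, map_mul]
    ring
  rw [e1, map_sum, map_sum]
  refine Finset.sum_congr rfl fun i _ => ?_
  rw [map_sum, map_sum]
  refine Finset.sum_congr rfl fun j _ => ?_
  have e2 : φ (f i * f j / α) = algebraMap k[X] K (G i j) := congrFun (congrFun hG i) j
  rw [map_smul, e2, smul_eq_mul, map_mul _ (η i * η j)]

end three

/-- the core -/
theorem core (h2 : S_RED) (h3 : S_WT) (h4 : S_NW) (h5 : S_NRM) (h6 : S_CHI)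
    {k K L : Type} [Field k] [Finite k] [Field K] [Algebra k[X] K] [IsFractionRing k[X] K]
    [Field L] [Algebra K L] [Algebra k[X] L] [IsScalarTower k[X] K L] {a b : k[X]} {θ : L}
    {N : ℕ} {S : Finset k[X]} {s : k[X] → k[X]} {a₀ b₀ : k} (hk : (6 : k) ≠ 0)
    (h : IsCub K a b θ) (hirr : Irreducible (X ^ 3 + C a₀ * X + C b₀ : k[X]))
    (hS : GoodS S s) (hF : Fam N a₀ b₀ S s a b)
    (hI : ∀ x : L, IsIntegral k[X] x ↔ ∃ v : Fin 3 → k[X], Crd θ v x) {α : L}
    {e : Fin 3 → L} (hα : α ≠ 0) (hsq : IsSquare (Algebra.norm K α)) (hns : ¬ IsSquare α)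
    (hSD : SD k K e α) (hT : ∀ Q ∈ S, TTV Q θ e α) {E : Matrix (Fin 3) (Fin 3) k[X]}
    (hE : ∀ i, Crd θ (E i) (e i)) {va : Fin 3 → k[X]} (hva : Crd θ va α) :
    LBad N S s a b := by
  have hk2 : (2 : k) ≠ 0 := by
    intro h0
    apply hk
    have : (6 : k) = 2 * 3 := by norm_num
    rw [this, h0, zero_mul]
  obtain ⟨G₁, G₂, κ, hκ, hG₁, hG₂, hdet, hEdet⟩ := gram h hI hα hsq hSD
  have hG₁ : gm (h.co 1) α e = am K G₁ := hG₁
  have hG₂ : gm (h.co 2) α e = am K G₂ := hG₂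
  have hcm := cm_crd h hE
  have hE0 : E.det ≠ 0 := by
    intro h0
    apply li_cm h hSD.li
    rw [hcm, am_det, h0, map_zero]
  rw [hcm, am_det, ← map_pow] at hEdet
  -- the norm
  have hαint : IsIntegral k[X] α := (hI α).2 ⟨va, hva⟩
  obtain ⟨n, hn⟩ := IsIntegrallyClosed.isIntegral_iff.1 (Algebra.isIntegral_norm K hαint)
  have hEn : E.det ^ 2 = C (κ ^ 2) * n := by
    apply inj (k := k) (K := K)
    rw [hEdet, map_mul, hn]
  have hdegn : 2 * E.det.natDegree = n.natDegree := by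
    have h7 := congrArg Polynomial.natDegree hEn
    rwa [Polynomial.natDegree_pow, Polynomial.natDegree_C_mul (pow_ne_zero 2 hκ)] at h7
  have hirr' : Irreducible (X ^ 3 + C (a.coeff (4 * N)) * X + C (b.coeff (6 * N)) : k[X]) := by
    rw [hF.ca, hF.cb]
    exact hirr
  have hnw : n.natDegree = 3 * wt ![0, 2 * N, 4 * N] va :=
    h4 k L K a b θ N h hF.da hF.db hirr' α va n hα hva hn
  -- reduction
  obtain ⟨U, hU, hmono, hsum⟩ := h2 k ![0, 2 * N, 4 * N] E hE0
  obtain ⟨d, hd⟩ : ∃ d : Fin 3 → ℕ, d = ![0, 2 * N, 4 * N] := ⟨_, rfl⟩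
  rw [← hd] at hnw hmono hsum
  have hd1 : d 1 = 2 * N := by rw [hd]; rfl
  have hd2 : d 2 = 4 * N := by rw [hd]; rfl
  have hdsum : ∑ j, d j = 6 * N := by
    rw [hd, Fin.sum_univ_three]
    show 0 + 2 * N + 4 * N = 6 * N
    ring
  rw [hdsum] at hsum
  obtain ⟨e', he'⟩ : ∃ e' : Fin 3 → L, e' = actK (am K U) e := ⟨_, rfl⟩
  obtain ⟨w, hw⟩ : ∃ w : Fin 3 → ℕ, ∀ i, w i = wt d ((U * E) i) := ⟨_, fun _ => rfl⟩
  have hcm' : cm h e' = am K (U * E) := by rw [he', cm_actK, hcm, am_mul]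
  have hE' : ∀ i, Crd θ ((U * E) i) (e' i) := crd_cm h hcm'
  have hUdet0 : U.det ≠ 0 := hU.ne_zero
  have hUE0 : (cm h e').det ≠ 0 := by
    rw [hcm', am_det, Matrix.det_mul]
    intro h0
    have := (map_eq_zero_iff _ (inj (k := k) (K := K))).1 h0
    exact mul_ne_zero hUdet0 hE0 this
  have he'0 : ∀ i, e' i ≠ 0 := by
    intro i h0
    apply hUE0
    refine Matrix.det_eq_zero_of_row_eq_zero i fun j => ?_
    unfold cm
    rw [h0, map_zero]
  have hint' : ∀ i j, IsIntegral k[X] (e' i * e' j / α) := by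
    rw [he']
    exact int_act U hSD.int
  choose V hV using fun i j => (hI _).1 (hint' i j)
  have hG₁' : gm (h.co 1) α e' = am K (U * G₁ * Uᵀ) := by
    rw [he']
    exact gm_am _ α U hG₁
  have hG₂' : gm (h.co 2) α e' = am K (U * G₂ * Uᵀ) := by
    rw [he']
    exact gm_am _ α U hG₂
  obtain ⟨H₁, hH₁⟩ : ∃ H₁, H₁ = U * G₁ * Uᵀ := ⟨_, rfl⟩
  obtain ⟨H₂, hH₂⟩ : ∃ H₂, H₂ = U * G₂ * Uᵀ := ⟨_, rfl⟩
  rw [← hH₁] at hG₁'
  rw [← hH₂] at hG₂'
  have hV1 : ∀ i j, V i j 1 = H₁ i j := by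
    intro i j
    apply inj (k := k) (K := K)
    rw [← crd_co h (hV i j)]
    exact congrFun (congrFun hG₁' i) j
  have hV2 : ∀ i j, V i j 2 = H₂ i j := by
    intro i j
    apply inj (k := k) (K := K)
    rw [← crd_co h (hV i j)]
    exact congrFun (congrFun hG₂' i) j
  have hwt : ∀ i j, wt d va + wt d (V i j) = w i + w j := by
    intro i j
    have hei : ∀ i, IsIntegral k[X] (e' i) := fun i => (hI _).2 ⟨_, hE' i⟩
    obtain ⟨W, hW⟩ := (hI _).1 ((hei i).mul (hei j))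
    have t1 := h3 k L K a b θ N h hF.da hF.db hirr' (e' i) (e' j) _ _ W (he'0 i) (he'0 j)
      (hE' i) (hE' j) hW
    have e1 : α * (e' i * e' j / α) = e' i * e' j := by field_simp
    have t2 := h3 k L K a b θ N h hF.da hF.db hirr' α (e' i * e' j / α) va (V i j) W hα
      (div_ne_zero (mul_ne_zero (he'0 i) (he'0 j)) hα) hva (hV i j) (by rw [e1]; exact hW)
    rw [← hd] at t1 t2
    rw [hw, hw]
    omega
  obtain ⟨u, hu⟩ : ∃ u, wt d va = 2 * u := ⟨wt d va / 2, by omega⟩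
  have hsumw : ∑ i, w i = 3 * u + 6 * N := by
    simp only [hw]
    omega
  obtain ⟨w', hw'⟩ : ∃ w' : Fin 3 → ℤ, ∀ i, w' i = (w i : ℤ) - u - 2 * N := ⟨_, fun _ => rfl⟩
  have hb2 : ∀ i j, DB (w' i + w' j) (H₂ i j) := by
    intro i j
    by_cases h0 : H₂ i j = 0
    · exact Or.inl h0
    · refine Or.inr ?_
      have t1 := le_wt d (V i j) 2 (by rw [hV2]; exact h0)
      rw [hV2, hd2] at t1
      have t2 := hwt i j
      rw [hw', hw']
      omega
  have hb1 : ∀ i j, DB (w' i + w' j + 2 * N) (H₁ i j) := by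
    intro i j
    by_cases h0 : H₁ i j = 0
    · exact Or.inl h0
    · refine Or.inr ?_
      have t1 := le_wt d (V i j) 1 (by rw [hV1]; exact h0)
      rw [hV1, hd1] at t1
      have t2 := hwt i j
      rw [hw', hw']
      omega
  -- the normal form
  obtain ⟨c, hc1, hc2⟩ := Polynomial.isUnit_iff.1 hU
  have hc0 : c ≠ 0 := hc1.ne_zero
  have hsym : H₂.IsSymm := by
    apply am_inj (K := K)
    rw [am_transpose, ← hG₂', gm_symm]
  have hdetH : H₂.det = -C ((κ * c) ^ 2) := by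
    rw [hH₂, Matrix.det_mul, Matrix.det_mul, Matrix.det_transpose, hdet, ← hc2]
    simp only [C_mul, C_pow]
    ring
  obtain ⟨m, V', hV', hVG, hVd⟩ := h5 k hk2 H₂ w' (κ * c) hsym (mul_ne_zero hκ hc0) hdetH
    (fun i j hij => by
      rw [hw', hw']
      have t1 := hmono hij
      simp only at t1
      rw [← hw, ← hw] at t1
      have t2 : (w i : ℤ) ≤ w j := by exact_mod_cast t1
      linarith)
    (by
      rw [Fin.sum_univ_three, hw', hw', hw']
      rw [Fin.sum_univ_three] at hsumw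
      omega) hb2
  obtain ⟨T, hTdef⟩ : ∃ T : Fin 3 → ℤ, T = ![-(m : ℤ), 0, (m : ℤ)] := ⟨_, rfl⟩
  rw [← hTdef] at hVd
  have hT0 : T 0 = -m := by rw [hTdef]; rfl
  have hT1 : T 1 = 0 := by rw [hTdef]; rfl
  have hT2 : T 2 = m := by rw [hTdef]; rfl
  obtain ⟨Γ, hΓ⟩ : ∃ Γ, Γ = V' * H₁ * V'ᵀ := ⟨_, rfl⟩
  have hΓd : ∀ i j, DB (T i + T j + 2 * N) (Γ i j) := by
    intro i j
    rw [hΓ, Matrix.mul_apply]
    refine DB.sum _ _ fun l _ => ?_
    rw [Matrix.mul_apply, Matrix.transpose_apply, Finset.sum_mul]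
    refine DB.sum _ _ fun p _ => ?_
    have t1 : DB (T i - w' p) (V' i p) := hVd i p
    have t2 : DB (T j - w' l) (V' j l) := hVd j l
    exact ((t1.mul (hb1 p l)).mul t2).congr (by ring)
  obtain ⟨f, hf⟩ : ∃ f : Fin 3 → L, f = actK (am K V') e' := ⟨_, rfl⟩
  have hg1 : gm (h.co 1) α f = am K Γ := by
    rw [hf, hΓ]
    exact gm_am _ α V' hG₁'
  have hg2 : gm (h.co 2) α f =
      am K (!![0, 0, 1; 0, 1, 0; 1, 0, 0] : Matrix (Fin 3) (Fin 3) k[X]) := by
    rw [hf, ← hVG]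
    exact gm_am _ α V' hG₂'
  have hg2' : ∀ i j, h.co 2 (f i * f j / α) =
      (!![0, 0, 1; 0, 1, 0; 1, 0, 0] : Matrix (Fin 3) (Fin 3) K) i j := by
    intro i j
    have t1 : h.co 2 (f i * f j / α) =
        algebraMap k[X] K ((!![0, 0, 1; 0, 1, 0; 1, 0, 0] : Matrix (Fin 3) (Fin 3) k[X]) i j) :=
      congrFun (congrFun hg2 i) j
    rw [t1]
    fin_cases i <;> fin_cases j <;> simp
  have hfdet : (cm h f).det ≠ 0 := by
    rw [hf, cm_actK, Matrix.det_mul, am_det]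
    refine mul_ne_zero ?_ hUE0
    rw [Ne, map_eq_zero_iff _ (inj (k := k) (K := K))]
    exact hV'.ne_zero
  have hfli : LinearIndependent K f := li_of_cm h hfdet
  obtain ⟨hc11, hcA, hcB⟩ := h6 k K L a b θ hk h α f hα hfli hg2'
    (fun i j => algebraMap k[X] K (Γ i j)) (fun i j => congrFun (congrFun hg1 i) j)
  have hΓs : ∀ i j, Γ i j = Γ j i := by
    intro i j
    apply inj (k := k) (K := K)
    have t1 : gm (h.co 1) α f i j = gm (h.co 1) α f j i :=
      congrFun (congrFun (gm_symm (h.co 1) α f) j) i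
    rw [hg1] at t1
    exact t1
  have hΓ11 : Γ 1 1 = -2 * Γ 0 2 := by
    apply inj (k := k) (K := K)
    rw [map_mul, map_neg, map_ofNat]
    exact hc11
  obtain ⟨B, hB⟩ : ∃ B : Tup k[X], B = ⟨Γ 0 0, Γ 0 1, Γ 0 2, Γ 1 2, Γ 2 2⟩ := ⟨_, rfl⟩
  have hchA : chA B = a := by
    apply inj (k := k) (K := K)
    rw [← hcA, hB]
    simp only [chA, map_sub, map_mul, map_neg, map_pow, map_ofNat]
  have hchB : chB B = b := by
    apply inj (k := k) (K := K)
    rw [← hcB, hB]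
    simp only [chB, map_sub, map_add, map_mul, map_neg, map_pow, map_ofNat]
  have hf0 : f 0 ≠ 0 := hfli.ne_zero 0
  have hΓ0 : Γ 0 0 ≠ 0 := by
    intro h0
    apply hns
    refine sq_of_zero h hα hf0 hsq ?_ ?_
    · have t1 : h.co 1 (f 0 * f 0 / α) = algebraMap k[X] K (Γ 0 0) :=
        congrFun (congrFun hg1 0) 0
      rw [t1, h0, map_zero]
    · rw [hg2']
      simp
  have hmN : m ≤ N := by
    have t1 := (hΓd 0 0).resolve_left hΓ0
    rw [hT0] at t1
    omega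
  refine ⟨m, hmN, B, ⟨?_, ?_, ?_, ?_⟩, ?_, hchA, hchB⟩
  · -- the box
    have hz : ∀ (P : k[X]) (z : ℤ), 0 ≤ z → DB z P → (P.natDegree : ℤ) ≤ z := by
      intro P z hz hP
      rcases hP with rfl | hP
      · simpa using hz
      · exact hP
    have t00 := hz _ _ (by rw [hT0]; omega) (hΓd 0 0)
    have t01 := hz _ _ (by rw [hT0, hT1]; omega) (hΓd 0 1)
    have t02 := hz _ _ (by rw [hT0, hT2]; omega) (hΓd 0 2)
    have t12 := hz _ _ (by rw [hT1, hT2]; omega) (hΓd 1 2)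
    have t22 := hz _ _ (by rw [hT2]; omega) (hΓd 2 2)
    rw [hT0] at t00 t01 t02
    rw [hT1] at t01 t12
    rw [hT2] at t02 t12 t22
    rw [hB]
    refine ⟨?_, ?_, ?_, ?_, ?_⟩ <;> simp only <;> omega
  · -- the isotropic vectors
    intro Q hQ
    have hQirr : Irreducible Q := (hS Q hQ).2.1
    obtain ⟨ξ, ξ', hmin, ⟨v, hv1, hv2, hv⟩, ⟨v', hv1', hv2', hv'⟩⟩ := hT Q hQ
    obtain ⟨W, hW⟩ : ∃ W, W = V' * U := ⟨_, rfl⟩
    have hWdet : IsUnit W.det := by
      rw [hW, Matrix.det_mul]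
      exact hV'.mul hU
    have hWi : W⁻¹ * W = 1 := Matrix.nonsing_inv_mul _ hWdet
    have hfW : f = actK (am K W) e := by
      rw [hf, he', ← actK_mul, ← am_mul, hW]
    have heW : e = actK (am K W⁻¹) f := by
      rw [hfW, ← actK_mul, ← am_mul, hWi, am_one, actK_one]
    have hsumξ : ∀ ξ : Fin 3 → k[X], ∑ i, algebraMap k[X] L (ξ i) * e i =
        ∑ j, algebraMap k[X] L ((ξ ᵥ* W⁻¹) j) * f j := by
      intro ξ
      rw [← sum_act (K := K), ← heW]
    have hback : ∀ ξ : Fin 3 → k[X], (ξ ᵥ* W⁻¹) ᵥ* W = ξ := by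
      intro ξ
      rw [Matrix.vecMul_vecMul, hWi, Matrix.vecMul_one]
    have hq2 : ∀ (ξ v : Fin 3 → k[X]), Q ∣ v 2 →
        Crd θ v ((∑ i, algebraMap k[X] L (ξ i) * e i) ^ 2 / α) →
        Q ∣ 2 * (ξ ᵥ* W⁻¹) 0 * (ξ ᵥ* W⁻¹) 2 + (ξ ᵥ* W⁻¹) 1 ^ 2 := by
      intro ξ v hv2 hv
      have t1 := crd_co h hv 2
      rw [hsumξ, quad (h.co 2) α f hg2] at t1
      have t2 := inj (k := k) (K := K) t1
      rw [← t2] at hv2
      refine hv2.trans (dvd_of_eq ?_)
      simp only [Fin.sum_univ_three]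
      simp
      ring
    have hq1 : ∀ (ξ v : Fin 3 → k[X]), Q ∣ v 1 →
        Crd θ v ((∑ i, algebraMap k[X] L (ξ i) * e i) ^ 2 / α) →
        Q ∣ qp B (ξ ᵥ* W⁻¹) := by
      intro ξ v hv1 hv
      have t1 := crd_co h hv 1
      rw [hsumξ, quad (h.co 1) α f hg1] at t1
      have t2 := inj (k := k) (K := K) t1
      rw [← t2] at hv1
      refine hv1.trans (dvd_of_eq ?_)
      rw [hB]
      unfold qp
      simp only [Fin.sum_univ_three]
      rw [hΓ11, hΓs 1 0, hΓs 2 0, hΓs 2 1]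
      ring
    refine tt_of hk2 hQirr B (hq2 ξ v hv2 hv) (hq1 ξ v hv1 hv) (hq2 ξ' v' hv2' hv')
      (hq1 ξ' v' hv1' hv') ?_
    by_contra hcon
    push Not at hcon
    obtain ⟨i, j, hij⟩ := hmin
    apply hij
    rw [← hback ξ, ← hback ξ', minors]
    refine Finset.dvd_sum fun p _ => Finset.dvd_sum fun q _ => ?_
    exact (hcon p q).mul_left _
  · intro Q hQ
    rw [hchA]
    exact hF.ra Q hQ
  · intro Q hQ
    rw [hchB]
    exact hF.rb Q hQ
  · rw [hB]
    exact hΓ0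

end Pool.Agent.N457.PP
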