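import Mathlib
import Pool.Agent.N457.PP.D

/-!
# Project PP, part LB (helper457): from the self-dual lattice to the tuple
-/

set_option autoImplicit false
set_option linter.all false

open Polynomial Matrix
open scoped Classical

namespace Pool.Agent.N457.PP

open Pool.Agent.N874.PP

section scale

variable {k K L : Type} [Field k] [Field K] [Algebra k[X] K] [IsFractionRing k[X] K]
  [Field L] [Algebra K L] [Algebra k[X] L] [IsScalarTower k[X] K L] {a b : k[X]} {θ : L}

lemma scale_eq {c x y α : L} (hc : c ≠ 0) : c * x * (c * y) / (c ^ 2 * α) = x * y / α := by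
  rw [show c * x * (c * y) = c ^ 2 * (x * y) by ring]
  exact mul_div_mul_left _ _ (pow_ne_zero 2 hc)

lemma sd_scale {e : Fin 3 → L} {α c : L} (hc : c ≠ 0) (h : SD k K e α) :
    SD k K (fun i => c * e i) (c ^ 2 * α) where
  li := by
    rw [Fintype.linearIndependent_iff]
    intro g hg
    refine Fintype.linearIndependent_iff.1 h.li g ?_
    have h1 : c * ∑ i, g i • e i = 0 := by
      rw [← hg, Finset.mul_sum]
      exact Finset.sum_congr rfl fun i _ => mul_smul_comm _ _ _
    exact (mul_eq_zero.1 h1).resolve_left hc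
  int i j := by
    rw [scale_eq hc]
    exact h.int i j
  dual y hy := by
    obtain ⟨v, hv⟩ := h.dual (y / c) fun i => by
      have h1 := hy i
      have h2 : c * e i * y / (c ^ 2 * α) = e i * (y / c) / α := by
        have h3 : y = c * (y / c) := by field_simp
        conv_lhs => rw [h3]
        exact scale_eq hc
      rwa [h2] at h1
    refine ⟨v, ?_⟩
    have h3 : y = c * (y / c) := by field_simp
    rw [h3, hv, Finset.mul_sum]
    refine Finset.sum_congr rfl fun i _ => ?_
    ring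

lemma ttv_scale {Q : k[X]} {e : Fin 3 → L} {α c : L} (hc : c ≠ 0) (h : TTV Q θ e α) :
    TTV Q θ (fun i => c * e i) (c ^ 2 * α) := by
  have key : ∀ ξ : Fin 3 → k[X], (∑ i, algebraMap k[X] L (ξ i) * (c * e i)) ^ 2 / (c ^ 2 * α) =
      (∑ i, algebraMap k[X] L (ξ i) * e i) ^ 2 / α := by
    intro ξ
    have h1 : ∑ i, algebraMap k[X] L (ξ i) * (c * e i) =
        c * ∑ i, algebraMap k[X] L (ξ i) * e i := by
      rw [Finset.mul_sum]
      exact Finset.sum_congr rfl fun i _ => by ring
    rw [h1, mul_pow]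
    exact mul_div_mul_left _ _ (pow_ne_zero 2 hc)
  obtain ⟨ξ, ξ', h1, ⟨v, hv1, hv2, hv⟩, ⟨v', hv1', hv2', hv'⟩⟩ := h
  exact ⟨ξ, ξ', h1, ⟨v, hv1, hv2, by rw [key]; exact hv⟩,
    ⟨v', hv1', hv2', by rw [key]; exact hv'⟩⟩

end scale

/-- LB -/
theorem lb (h1 : S_INT) (h2 : S_RED) (h3 : S_WT) (h4 : S_NW) (h5 : S_NRM) (h6 : S_CHI) :
    S_LB := by
  intro k K L _ _ _ _ _ _ _ _ _ a b θ N S s a₀ b₀ hk h hirr hS hF α e hα hsq hns hSD hT
  have hI := h1 k K L a b θ hk h hF.sq
  -- denominators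
  obtain ⟨⟨c, hc⟩, hint⟩ := IsLocalization.exist_integer_multiples (nonZeroDivisors k[X])
    (Finset.univ : Finset (Option (Fin 3) × Fin 3))
    (fun p => h.co p.2 (Option.elim p.1 α e))
  have hc0 : c ≠ 0 := nonZeroDivisors.ne_zero hc
  have hint' : ∀ p : Option (Fin 3) × Fin 3, ∃ q : k[X], algebraMap k[X] K q =
      algebraMap k[X] K c * h.co p.2 (Option.elim p.1 α e) := by
    intro p
    obtain ⟨q, hq⟩ := hint p (Finset.mem_univ p)
    refine ⟨q, ?_⟩
    rw [hq, Algebra.smul_def]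
  choose q hq using hint'
  obtain ⟨cL, hcL⟩ : ∃ cL : L, cL = algebraMap k[X] L c := ⟨_, rfl⟩
  have hcK : algebraMap k[X] K c ≠ 0 := by
    rw [Ne, map_eq_zero_iff _ (inj (k := k) (K := K))]
    exact hc0
  have hcL' : cL = algebraMap K L (algebraMap k[X] K c) := by
    rw [hcL, ← IsScalarTower.algebraMap_apply]
  have hcL0 : cL ≠ 0 := by
    rw [hcL', Ne, map_eq_zero]
    exact hcK
  have hco : ∀ (i : Fin 3) (x : L), h.co i (cL * x) = algebraMap k[X] K c * h.co i x := by
    intro i x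
    rw [hcL', ← Algebra.smul_def, map_smul, smul_eq_mul]
  refine core h2 h3 h4 h5 h6 hk h hirr hS hF hI (α := cL ^ 2 * α) (e := fun i => cL * e i)
    (mul_ne_zero (pow_ne_zero 2 hcL0) hα) ?_ ?_ (sd_scale hcL0 hSD)
    (fun Q hQ => ttv_scale hcL0 (hT Q hQ))
    (E := Matrix.of fun i j => q (some i, j)) (va := fun j => c * q (none, j)) ?_ ?_
  · obtain ⟨r, hr⟩ := hsq
    refine ⟨Algebra.norm K cL * r, ?_⟩
    rw [map_mul, map_pow, hr]
    ring
  · rintro ⟨y, hy⟩
    apply hns
    refine ⟨y / cL, ?_⟩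
    field_simp
    linear_combination hy
  · intro i
    refine crd_of_co h fun j => ?_
    rw [hco]
    exact (hq (some i, j)).symm
  · refine crd_of_co h fun j => ?_
    rw [pow_two, mul_assoc, hco, hco, map_mul, hq (none, j)]
    rfl

end Pool.Agent.N457.PP
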